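import Pool.Agent.H132Z.HT.Model

/-!
There is a model of `RCA₀ + HT^{=2}_2` in which Ramsey's theorem for pairs and two colours fails.

Outline. Solutions of `HT^{=2}` can be added to a countable Turing ideal while preserving the
hyperimmunity of countably many functions. Conditions are a finite stem and a reservoir `R` of
positive density along a set of windows. The forcing question quantifies over all probability
laws of a random set that meets `R` in positive expected density in every block of an array of
windows. The array exists in the ideal because the correlations
`u ↦ density {s ∈ R | u + s has colour d}` are Fourier-Stieltjes transforms and `R` has only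
boundedly many large frequencies in each window.
-/

set_option autoImplicit false

namespace Pool.Agent.Results.MP_db6017_lc.NotProvable

open Pool.Agent.Helper617.RM Pool.Agent.H132Z.HT

/-- Some model of `RCA₀` satisfies `HT^{=2}_2` and not `RT²₂`. -/
theorem result : ∃ N : L2Structure.{0}, IsModelRCA0 N ∧ HTeq2 N 2 ∧ ¬ RT2 N 2 := by
  obtain ⟨N, h1, h2, h3⟩ := exists_model
  exact ⟨N, h1, h2 2, fun h => h3 2 le_rfl fun c hc _ => h c hc⟩

end Pool.Agent.Results.MP_db6017_lc.NotProvable
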