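import Pool.Agent.H132Z.HT.Red

/-!
`RT²₂` is not Weihrauch reducible to `HT^{=2}_2`. The maps `Φ`, `Ψ` on oracles are only assumed
to send each oracle to something Turing reducible to it; every Turing functional does so.
-/

set_option autoImplicit false

namespace Pool.Agent.Results.MP_db6017_lc.NotWeihrauch

open Pool.Agent.H132Z.RT Pool.Agent.H132Z.HT

/-- No pair of maps `Φ`, `Ψ` on oracles with `Φ o ≤_T o` and `Ψ o ≤_T o` for all `o` is such that
for every instance `f` of `RT²₂`, `Φ f` is an instance `g` of `HT^{=2}_2` and for every solution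
`G` of `g`, `Ψ (f ⊕ G)` is a solution of `f`. -/
theorem result : ¬ ∃ Φ Ψ : (ℕ →. ℕ) → (ℕ →. ℕ),
    (∀ o, TuringReducible (Φ o) o) ∧ (∀ o, TuringReducible (Ψ o) o) ∧
    ∀ f : Coloring, ∃ g : ℕ → Fin 2, Φ (colOracle f) = numOracle g ∧
      ∀ G : Set ℕ, SolHT2 g G →
        ∃ H : Set ℕ, Ψ (join (colOracle f) (setOracle G)) = setOracle H ∧ SolRT f H := by
  rintro ⟨Φ, Ψ, hΦ, hΨ, h⟩
  obtain ⟨f, hf⟩ := no_red
  obtain ⟨g, hg, hg'⟩ := h f
  obtain ⟨G, hG, hG'⟩ := hf 2 g (hg ▸ hΦ _)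
  obtain ⟨H, hH, hH'⟩ := hg' G hG
  exact hG' H (hH ▸ hΨ _) hH'

end Pool.Agent.Results.MP_db6017_lc.NotWeihrauch
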